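import Mathlib

set_option autoImplicit false

/-!
# Abstract polytopes, dualities and polarities: definitions
-/

namespace Pool.Agent.Q222.Pol

/-- Two flags (maximal chains) are adjacent when they differ in exactly one face. -/
def FlagAdj {α : Type} [PartialOrder α] (A B : Flag α) : Prop :=
  ((A : Set α) \ B).ncard = 1 ∧ ((B : Set α) \ A).ncard = 1

/-- An abstract polytope of rank `n`: a partially ordered set `Face` with a strictly monotone rank
function with values in `{-1, 0, ..., n}` such that there are a least face (of rank `-1`) and a
greatest face (of rank `n`), every flag contains exactly one face of each rank `-1, ..., n` (so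
exactly `n + 2` faces), the diamond condition holds, and any two flags `A`, `B` are joined by a
sequence of flags, each adjacent to the next, all containing `A ∩ B`. -/
structure AbstractPolytope (n : ℤ) where
  Face : Type
  [ord : PartialOrder Face]
  rk : Face → ℤ
  rk_strictMono : StrictMono rk
  least : ∃ F, rk F = -1 ∧ ∀ G, F ≤ G
  greatest : ∃ F, rk F = n ∧ ∀ G, G ≤ F
  flag_rank : ∀ (A : Flag Face) (i : ℤ), -1 ≤ i → i ≤ n → ∃! F, F ∈ A ∧ rk F = i
  diamond : ∀ F G : Face, F < G → rk G = rk F + 2 → {H | F < H ∧ H < G}.ncard = 2
  connected : ∀ A B : Flag Face, Relation.ReflTransGen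
    (fun C D : Flag Face => FlagAdj C D ∧ ∀ F ∈ A, F ∈ B → F ∈ D) A B

attribute [instance] AbstractPolytope.ord

/-- The polyhedron (abstract polytope of rank three) `P` is equivelar of type `{p, q}`: every 2-face
is a `p`-gon (it contains exactly `p` vertices) and every vertex-figure is a `q`-gon (every vertex
is contained in exactly `q` edges). -/
def Equivelar (P : AbstractPolytope 3) (p q : ℕ) : Prop :=
  (∀ F : P.Face, P.rk F = 2 → {v : P.Face | P.rk v = 0 ∧ v ≤ F}.ncard = p) ∧
  (∀ v : P.Face, P.rk v = 0 → {e : P.Face | P.rk e = 1 ∧ v ≤ e}.ncard = q)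

/-- A duality of `P` is an incidence reversing bijection of the set of faces: an isomorphism of
posets of `P.Face` onto the order dual of `P.Face`. -/
abbrev Duality {n : ℤ} (P : AbstractPolytope n) : Type := P.Face ≃o P.Faceᵒᵈ

/-- A polarity is a duality of period two. -/
def IsPolarity {n : ℤ} {P : AbstractPolytope n} (δ : Duality P) : Prop :=
  ∀ x : P.Face, OrderDual.ofDual (δ (OrderDual.ofDual (δ x))) = x

end Pool.Agent.Q222.Pol
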